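import Mathlib

set_option autoImplicit false

open PowerSeries PowerSeries.WithPiTopology Filter Topology

namespace Pool.Agent.Results.MP_7b566e_nt.Disproof

/-- The `i`-th factor `1 / (1 - x ^ (m ^ i)) ^ k` as a formal power series over `ℤ`. -/
noncomputable def factor (m k i : ℕ) : PowerSeries ℤ :=
  (invOfUnit (1 - X ^ (m ^ i) : PowerSeries ℤ) 1) ^ k

/-- The generating series `∏_{i ≥ 0} 1 / (1 - x ^ (m ^ i)) ^ k` (infinite product of formal power
series, for the topology of coefficientwise convergence). -/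
noncomputable def genFun (m k : ℕ) : PowerSeries ℤ := ∏' i : ℕ, factor m k i

/-- `A m k n` is the coefficient of `x ^ n` in `∏_{i ≥ 0} 1 / (1 - x ^ (m ^ i)) ^ k`. -/
noncomputable def A (m k n : ℕ) : ℤ := coeff n (genFun m k)

lemma mk_one_expand_mul (q : ℕ) (hq : q ≠ 0) :
    (1 - X ^ q : PowerSeries ℤ) * expand q hq (mk 1) = 1 := by
  have h := congrArg (expand q hq) (mk_one_mul_one_sub_eq_one ℤ)
  simp only [map_mul, map_sub, map_one, expand_X] at h
  rw [mul_comm]; exact h

lemma invOfUnit_eq_expand (q : ℕ) (hq : q ≠ 0) :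
    invOfUnit (1 - X ^ q : PowerSeries ℤ) 1 = expand q hq (mk 1) := by
  have hc : constantCoeff (1 - X ^ q : PowerSeries ℤ) = ((1 : ℤˣ) : ℤ) := by
    simp [hq]
  have h1 := invOfUnit_mul (1 - X ^ q : PowerSeries ℤ) 1 hc
  have h2 := mk_one_expand_mul q hq
  calc invOfUnit (1 - X ^ q : PowerSeries ℤ) 1
      = invOfUnit (1 - X ^ q : PowerSeries ℤ) 1 * ((1 - X ^ q) * expand q hq (mk 1)) := by
        rw [h2, mul_one]
    _ = expand q hq (mk 1) := by rw [← mul_assoc, h1, one_mul]

lemma factor_eq (m k i : ℕ) (hm : m ≠ 0) :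
    factor m (k + 1) i =
      expand (m ^ i) (pow_ne_zero i hm) (mk fun n => (Nat.choose (k + n) k : ℤ)) := by
  unfold factor
  rw [invOfUnit_eq_expand _ (pow_ne_zero i hm), ← map_pow, mk_one_pow_eq_mk_choose_add]

/-- Coefficients of `factor m (k+1) i`. -/
lemma coeff_factor (m k i n : ℕ) (hm : m ≠ 0) :
    coeff n (factor m (k + 1) i) =
      if m ^ i ∣ n then (Nat.choose (k + n / m ^ i) k : ℤ) else 0 := by
  rw [factor_eq m k i hm, coeff_expand]
  simp

lemma coeff_factor_sub_one (m k i n : ℕ) (hm : m ≠ 0) (hn : n < m ^ i) :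
    coeff n (factor m (k + 1) i - 1) = 0 := by
  rw [map_sub, coeff_factor m k i n hm]
  rcases Nat.eq_zero_or_pos n with rfl | hpos
  · simp
  · have : ¬ m ^ i ∣ n := fun h => absurd (Nat.le_of_dvd hpos h) (not_le.mpr hn)
    rw [if_neg this, coeff_one, if_neg (Nat.pos_iff_ne_zero.mp hpos), sub_zero]

/-- For `m ≥ 2` the infinite product converges. -/
lemma factor_multipliable (m k : ℕ) (hm : 2 ≤ m) : Multipliable (factor m (k + 1)) := by
  have hm0 : m ≠ 0 := by omega
  have h : Multipliable (fun i => 1 + (factor m (k + 1) i - 1)) := by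
    apply multipliable_one_add_of_tendsto_order_atTop_nhds_top
    refine ENat.tendsto_nhds_top_iff_natCast_lt.mpr
      (fun n ↦ Filter.eventually_atTop.mpr ⟨n + 1, ?_⟩)
    intro i hi
    have h1 : ((m ^ i : ℕ) : ℕ∞) ≤ (factor m (k + 1) i - 1).order := by
      apply le_order
      intro j hj
      apply coeff_factor_sub_one m k i j hm0
      exact_mod_cast hj
    refine lt_of_lt_of_le ?_ h1
    have h2 : i < m ^ i := Nat.lt_pow_self (by omega)
    have h3 : n < m ^ i := by omega
    exact_mod_cast h3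
  simpa using h

lemma genFun_hasProd (m k : ℕ) (hm : 2 ≤ m) :
    HasProd (factor m (k + 1)) (genFun m (k + 1)) :=
  (factor_multipliable m k hm).hasProd

lemma coeff_mul_factor (m k i n : ℕ) (hm : m ≠ 0) (hn : n < m ^ i) (φ : PowerSeries ℤ) :
    coeff n (φ * factor m (k + 1) i) = coeff n φ := by
  have h : φ * factor m (k + 1) i = φ + φ * (factor m (k + 1) i - 1) := by ring
  rw [h, map_add]
  have h2 : coeff n (φ * (factor m (k + 1) i - 1)) = 0 := by
    rw [coeff_mul]
    apply Finset.sum_eq_zero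
    intro x hx
    have hx2 : x.1 + x.2 = n := Finset.HasAntidiagonal.mem_antidiagonal.mp hx
    rw [coeff_factor_sub_one m k i x.2 hm (by omega), mul_zero]
  rw [h2, add_zero]

/-- The coefficient of `x ^ n` only depends on the factors with `m ^ i ≤ n`. -/
lemma coeff_genFun (m k n N : ℕ) (hm : 2 ≤ m) (hn : n < m ^ N) :
    coeff n (genFun m (k + 1)) = coeff n (∏ i ∈ Finset.range N, factor m (k + 1) i) := by
  have hm0 : m ≠ 0 := by omega
  have h1 : ∀ M, N ≤ M → coeff n (∏ i ∈ Finset.range M, factor m (k + 1) i) =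
      coeff n (∏ i ∈ Finset.range N, factor m (k + 1) i) := by
    intro M hM
    induction M, hM using Nat.le_induction with
    | base => rfl
    | succ M hM ih =>
      rw [Finset.prod_range_succ, coeff_mul_factor m k M n hm0, ih]
      exact lt_of_lt_of_le hn (Nat.pow_le_pow_right (by omega) hM)
  have h2 := (genFun_hasProd m k hm).tendsto_prod_nat
  have h3 := ((continuous_coeff ℤ n).tendsto (genFun m (k + 1))).comp h2
  have h4 : Tendsto (fun M => coeff n (∏ i ∈ Finset.range M, factor m (k + 1) i)) atTop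
      (𝓝 (coeff n (∏ i ∈ Finset.range N, factor m (k + 1) i))) :=
    tendsto_atTop_of_eventually_const h1
  exact tendsto_nhds_unique h3 h4

/-- Multiplying by a series in `x ^ q`. -/
lemma coeff_mul_expand (q : ℕ) (hq : q ≠ 0) (φ ψ : PowerSeries ℤ) (n : ℕ) :
    coeff n (φ * expand q hq ψ) =
      ∑ b ∈ Finset.range (n / q + 1), coeff (n - q * b) φ * coeff b ψ := by
  rw [coeff_mul, Finset.Nat.sum_antidiagonal_eq_sum_range_succ
    (fun a b => coeff a φ * coeff b (expand q hq ψ)) n, ← Finset.sum_range_reflect]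
  simp only [coeff_expand]
  have hqpos : 0 < q := Nat.pos_of_ne_zero hq
  symm
  apply Finset.sum_of_injOn (fun b => q * b)
  · intro a _ b _ hab
    exact Nat.eq_of_mul_eq_mul_left hqpos hab
  · intro b hb
    simp only [Finset.coe_range, Set.mem_Iio] at hb ⊢
    have : b ≤ n / q := by omega
    have := (Nat.le_div_iff_mul_le hqpos).mp this
    have h3 : q * b = b * q := mul_comm _ _
    omega
  · intro j hj hj'
    simp only [Finset.mem_range] at hj
    have h0 : n + 1 - 1 - j ≤ n := by omega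
    have h1 : n - (n + 1 - 1 - j) = j := by omega
    rw [h1]
    have h2 : ¬ q ∣ j := by
      rintro ⟨b, rfl⟩
      apply hj'
      refine ⟨b, ?_, rfl⟩
      simp only [Finset.coe_range, Set.mem_Iio]
      have : b * q ≤ n := by rw [mul_comm]; omega
      have := (Nat.le_div_iff_mul_le hqpos).mpr this
      omega
    rw [if_neg h2, mul_zero]
  · intro b hb
    simp only [Finset.mem_range] at hb
    have h0 : b ≤ n / q := by omega
    have h1 := (Nat.le_div_iff_mul_le hqpos).mp h0
    have h3 : q * b = b * q := mul_comm _ _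
    have h2 : n - (n + 1 - 1 - q * b) = q * b := by omega
    have h4 : n + 1 - 1 - q * b = n - q * b := by omega
    rw [h2, h4, if_pos (Dvd.intro b rfl), Nat.mul_div_cancel_left b hqpos]

/-- Fast evaluation of `Nat.choose (k + a) k`. -/
def ch (k : ℕ) : ℕ → ℕ
  | 0 => 1
  | a + 1 => ch k a * (k + 1 + a) / (a + 1)

lemma ch_eq (k a : ℕ) : ch k a = Nat.choose (k + a) k := by
  induction a with
  | zero => simp [ch]
  | succ a ih =>
    rw [ch, ih]
    have h1 : Nat.choose (k + a) k = Nat.choose (k + a) a := Nat.choose_symm_add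
    have h2 : Nat.choose (k + (a + 1)) k = Nat.choose (k + (a + 1)) (a + 1) := Nat.choose_symm_add
    rw [h1, h2]
    have h3 := Nat.add_one_mul_choose_eq (k + a) a
    have h4 : k + 1 + a = k + a + 1 := by omega
    have h5 : k + (a + 1) = k + a + 1 := by omega
    rw [h4, h5, mul_comm, h3]
    exact Nat.mul_div_cancel _ (Nat.succ_pos a)

/-- The double sum giving the coefficient of `x ^ n` for `n < m ^ 3`. -/
def S (m k n : ℕ) : ℕ :=
  ∑ c ∈ Finset.range (n / m ^ 2 + 1),
    (∑ b ∈ Finset.range ((n - m ^ 2 * c) / m + 1),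
      ch k (n - m ^ 2 * c - m * b) * ch k b) * ch k c

lemma A_eq_S (m k n : ℕ) (hm : 2 ≤ m) (hn : n < m ^ 3) : A m (k + 1) n = (S m k n : ℤ) := by
  have hm0 : m ≠ 0 := by omega
  unfold A S
  rw [coeff_genFun m k n 3 hm hn, Finset.prod_range_succ, Finset.prod_range_succ,
    Finset.prod_range_one, factor_eq m k 2 hm0, coeff_mul_expand]
  push_cast
  apply Finset.sum_congr rfl
  intro c _
  have h1 : m ^ 1 = m := pow_one m
  rw [factor_eq m k 1 hm0, coeff_mul_expand, coeff_mk, ← ch_eq, h1]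
  congr 1
  apply Finset.sum_congr rfl
  intro b _
  rw [coeff_factor m k 0 _ hm0, coeff_mk, ← ch_eq]
  simp [ch_eq]

lemma S_221 : 13 ^ 4 ∣ S 13 767 221 ∧ ¬ 13 ^ 5 ∣ S 13 767 221 := by
  decide +kernel

lemma S_222 : 13 ^ 3 ∣ S 13 767 222 ∧ ¬ 13 ^ 4 ∣ S 13 767 222 := by
  decide +kernel

lemma A_221 : emultiplicity (13 : ℤ) (A 13 768 221) = 4 := by
  rw [A_eq_S 13 767 221 (by norm_num) (by norm_num)]
  have h := S_221
  have : emultiplicity (13 : ℤ) (S 13 767 221 : ℤ) = ((4 : ℕ) : ℕ∞) := by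
    rw [emultiplicity_eq_coe]
    exact ⟨by exact_mod_cast h.1, by exact_mod_cast h.2⟩
  exact this

lemma A_222 : emultiplicity (13 : ℤ) (A 13 768 222) = 3 := by
  rw [A_eq_S 13 767 222 (by norm_num) (by norm_num)]
  have h := S_222
  have : emultiplicity (13 : ℤ) (S 13 767 222 : ℤ) = ((3 : ℕ) : ℕ∞) := by
    rw [emultiplicity_eq_coe]
    exact ⟨by exact_mod_cast h.1, by exact_mod_cast h.2⟩
  exact this

/-- Q1 is false: there are a prime `p ≥ 3`, `u ∈ {2, …, p - 1}` and `s ≥ 1` such that, with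
`k = (p - 1) (u p ^ s - 1)`, assertion (i) fails for some `n ≥ u p ^ s` and assertion (ii) fails
for some `n ≥ 1`. -/
theorem result :
    ∃ p u s : ℕ, p.Prime ∧ 3 ≤ p ∧ 2 ≤ u ∧ u ≤ p - 1 ∧ 1 ≤ s ∧
      (∃ n : ℕ, u * p ^ s ≤ n ∧
        ¬ (emultiplicity (p : ℤ) (A p ((p - 1) * (u * p ^ s - 1)) n) = 1 ∨
          emultiplicity (p : ℤ) (A p ((p - 1) * (u * p ^ s - 1)) n) = 2)) ∧
      (∃ n : ℕ, 1 ≤ n ∧ ∃ j < p, ∃ j' < p,
        emultiplicity (p : ℤ) (A p ((p - 1) * (u * p ^ s - 1)) (p * n + j)) ≠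
          emultiplicity (p : ℤ) (A p ((p - 1) * (u * p ^ s - 1)) (p * n + j'))) := by
  refine ⟨13, 5, 1, by norm_num, by norm_num, by norm_num, by norm_num, le_refl 1, ?_, ?_⟩
  · refine ⟨221, by norm_num, ?_⟩
    have hk : (13 - 1) * (5 * 13 ^ 1 - 1) = 768 := by norm_num
    rw [hk]
    have h := A_221
    push_cast
    rw [h]
    decide
  · refine ⟨17, by norm_num, 0, by norm_num, 1, by norm_num, ?_⟩
    have hk : (13 - 1) * (5 * 13 ^ 1 - 1) = 768 := by norm_num
    have h0 : 13 * 17 + 0 = 221 := by norm_num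
    have h1 : 13 * 17 + 1 = 222 := by norm_num
    rw [hk, h0, h1]
    push_cast
    rw [A_221, A_222]
    decide

end Pool.Agent.Results.MP_7b566e_nt.Disproof
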